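import Pool.Agent.MP_16d773_co.Small

/-!
`L(4) = 1/2 - (2/pi) * (arcsin (1/√3) - arcsin (1/√6))`.
-/

namespace Pool.Agent.Results.MP_16d773_co.FourCores

open Filter Topology Pool.Agent.MP_16d773_co

theorem result :
    Tendsto (fun n : ℕ => (semigroupCoreCount 4 n : ℝ) / (coreCount 4 n : ℝ)) atTop
      (𝓝 (1 / 2 - 2 / Real.pi * (Real.arcsin (1 / √3) - Real.arcsin (1 / √6)))) :=
  limit_four

end Pool.Agent.Results.MP_16d773_co.FourCores
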