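import Pool.Agent.MP_16d773_co.Limit

/-!
The limiting proportion of `a`-cores of size at most `n` that come from numerical semigroups, for every `a ≥ 1`:
`L(a) = a * P(y (i + j) + y 0 ≤ y i + y j for all i, j in Z/a)`, where `y` is a vector of independent standard
Gaussian variables indexed by `Z/a`.
-/

namespace Pool.Agent.Results.MP_16d773_co.General

open MeasureTheory ProbabilityTheory Filter Topology Pool.Agent.MP_16d773_co

theorem result (a : ℕ) [NeZero a] :
    Tendsto (fun n : ℕ => (semigroupCoreCount a n : ℝ) / (coreCount a n : ℝ)) atTop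
      (𝓝 ((a : ℝ) * (Measure.pi (fun _ : ZMod a => gaussianReal 0 1)).real
        {y : ZMod a → ℝ | ∀ i j : ZMod a, y (i + j) + y 0 ≤ y i + y j})) := by
  obtain ⟨m, rfl⟩ : ∃ m, a = m + 1 := ⟨a - 1, by have := NeZero.pos a; omega⟩
  exact limit_fin m

end Pool.Agent.Results.MP_16d773_co.General
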