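import Pool.Agent.MP_16d773_co.Limit
import Pool.Agent.KZ.G

/-!
The limiting proportion `L(a)` of `a`-cores of size at most `n` that come from numerical semigroups satisfies
`L(a) ~ 128 √3 π (log a) / a^5` as `a → ∞`.
-/

namespace Pool.Agent.Results.MP_16d773_co.LargeA

open MeasureTheory ProbabilityTheory Filter Topology Pool.Agent.MP_16d773_co

theorem result : ∃ L : ℕ → ℝ,
    (∀ a : ℕ, 2 ≤ a →
      Tendsto (fun n : ℕ => (semigroupCoreCount a n : ℝ) / (coreCount a n : ℝ)) atTop (𝓝 (L a))) ∧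
    Tendsto (fun a : ℕ => L a * (a : ℝ) ^ 5 / Real.log a) atTop (𝓝 (128 * √3 * Real.pi)) := by
  refine ⟨fun a => if h : a = 0 then 0 else
    haveI : NeZero a := ⟨h⟩
    (a : ℝ) * (Pool.Agent.KZ.gm (ZMod a)).real (Pool.Agent.KZ.Cone a), ?_, ?_⟩
  · intro a ha
    obtain ⟨m, rfl⟩ : ∃ m, a = m + 1 := ⟨a - 1, by omega⟩
    beta_reduce
    rw [dif_neg (Nat.succ_ne_zero m)]
    exact limit_fin m
  · refine Pool.Agent.KZ.cone_asymp _ fun a h => ?_
    rw [dif_neg h.out]

end Pool.Agent.Results.MP_16d773_co.LargeA
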