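import Pool.Agent.MP_16d773_co.Small

/-!
`L(3) = 1/2`: asymptotically half of the 3-cores of size at most `n` come from numerical semigroups.
-/

namespace Pool.Agent.Results.MP_16d773_co.ThreeCores

open Filter Topology Pool.Agent.MP_16d773_co

theorem result :
    Tendsto (fun n : ℕ => (semigroupCoreCount 3 n : ℝ) / (coreCount 3 n : ℝ)) atTop (𝓝 (1 / 2)) :=
  limit_three

end Pool.Agent.Results.MP_16d773_co.ThreeCores
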